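import Pool.Graph.R_seed8.Results.MP_0dac36_co.DegreeGame

/-!
The step of the game in the Shearer region for a clique: if the weights of the vertices of a clique
are changed in several ways and the average change is not an increase, then one of the changes
stays in the region.
-/

set_option autoImplicit false
set_option linter.unusedSectionVars false

namespace Pool.Agent.H21.DG

open Finset
open Pool.Agent.Results.MP_0dac36_co.DegreeGame (Q R nb mem_nb Q_erase Q_congr Q_ratio Q_anti)

variable {V : Type*} [Fintype V] [DecidableEq V] (G : SimpleGraph V)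

/-- Dependence of the polynomial on the weights of a clique. -/
lemma Q_clique (f g : V → ℝ) (C : Finset V) (hC : ∀ a ∈ C, ∀ b ∈ C, a ≠ b → G.Adj a b)
    (hfg : ∀ v, v ∉ C → g v = f v) : ∀ W : Finset V,
    Q G g W = Q G f (W \ C) - ∑ c ∈ C ∩ W, g c * Q G f ((W \ C) \ nb G c) := by
  have key : ∀ (n : ℕ) (W : Finset V), (C ∩ W).card = n →
      Q G g W = Q G f (W \ C) - ∑ c ∈ C ∩ W, g c * Q G f ((W \ C) \ nb G c) := by
    intro n
    induction n with
    | zero =>
      intro W hW
      have h1 : C ∩ W = ∅ := card_eq_zero.1 hW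
      have h2 : W \ C = W := by
        rw [Finset.sdiff_eq_self_iff_disjoint, Finset.disjoint_iff_inter_eq_empty,
          Finset.inter_comm]
        exact h1
      rw [h1, sum_empty, sub_zero, h2]
      apply Q_congr
      intro v hv
      apply hfg
      intro hvC
      have : v ∈ C ∩ W := mem_inter.2 ⟨hvC, hv⟩
      rw [h1] at this
      exact absurd this (notMem_empty v)
    | succ n ih =>
      intro W hW
      have hne : (C ∩ W).Nonempty := by
        rw [← card_pos, hW]
        exact Nat.succ_pos n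
      obtain ⟨c, hc⟩ := hne
      obtain ⟨hcC, hcW⟩ := mem_inter.1 hc
      have e1 : C ∩ W.erase c = (C ∩ W).erase c := by
        ext x
        simp only [mem_inter, mem_erase]
        tauto
      have e2 : W.erase c \ C = W \ C := by
        ext x
        simp only [mem_sdiff, mem_erase]
        constructor
        · tauto
        · rintro ⟨h1, h2⟩
          exact ⟨⟨fun h => h2 (h ▸ hcC), h1⟩, h2⟩
      have e3 : W.erase c \ nb G c = (W \ C) \ nb G c := by
        ext x
        simp only [mem_sdiff, mem_erase]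
        constructor
        · rintro ⟨⟨h1, h2⟩, h3⟩
          refine ⟨⟨h2, fun h => h3 ?_⟩, h3⟩
          rw [mem_nb]
          exact hC c hcC x h (Ne.symm h1)
        · rintro ⟨⟨h1, h2⟩, h3⟩
          exact ⟨⟨fun h => h2 (h ▸ hcC), h1⟩, h3⟩
      have hcard : (C ∩ W.erase c).card = n := by
        rw [e1, card_erase_of_mem hc, hW]
        rfl
      rw [Q_erase G g hcW, ih _ hcard, e1, e2, e3]
      have e4 : Q G g ((W \ C) \ nb G c) = Q G f ((W \ C) \ nb G c) := by
        apply Q_congr
        intro v hv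
        exact hfg v (mem_sdiff.1 (mem_sdiff.1 hv).1).2
      rw [e4, ← add_sum_erase _ _ hc]
      ring
  exact fun W => key _ W rfl

/-- Changing the weights of a clique: one of the changes stays in the region if the (weighted)
average change is not an increase. -/
lemma R_step_clique {f : V → ℝ} (hf : ∀ v, 0 ≤ f v) (hR : R G f) (C : Finset V)
    (hC : ∀ a ∈ C, ∀ b ∈ C, a ≠ b → G.Adj a b) (a : V → ℝ) (ha : ∀ c ∈ C, 0 ≤ a c)
    (hpos : 0 < ∑ c ∈ C, a c) (g : V → V → ℝ)
    (h1 : ∀ c ∈ C, ∀ v, v ∉ C → g c v = f v) (h2 : ∀ c ∈ C, ∀ v ∈ C, 0 ≤ g c v)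
    (h3 : ∀ v ∈ C, ∑ c ∈ C, a c * g c v ≤ (∑ c ∈ C, a c) * f v) : ∃ c ∈ C, R G (g c) := by
  set V0 : Finset V := univ \ C with hV0
  have hq := hR V0
  have hone : ∀ c ∈ C, 0 < Q G f V0 - ∑ v ∈ C, g c v * Q G f (V0 \ nb G v) → R G (g c) := by
    intro c hc hpos W
    rw [Q_clique G f (g c) C hC (h1 c hc) W]
    set W0 : Finset V := W \ C with hW0
    have hsub : W0 ⊆ V0 := sdiff_subset_sdiff (subset_univ _) le_rfl
    have hW := hR W0
    have k1 : Q G f V0 * ∑ v ∈ C ∩ W, g c v * Q G f (W0 \ nb G v) ≤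
        Q G f W0 * ∑ v ∈ C, g c v * Q G f (V0 \ nb G v) := by
      rw [mul_sum, mul_sum]
      calc ∑ v ∈ C ∩ W, Q G f V0 * (g c v * Q G f (W0 \ nb G v))
          ≤ ∑ v ∈ C, Q G f V0 * (g c v * Q G f (W0 \ nb G v)) := by
            apply sum_le_sum_of_subset_of_nonneg inter_subset_left
            intro v hv _
            exact mul_nonneg hq.le (mul_nonneg (h2 c hc v hv) (hR _).le)
        _ ≤ ∑ v ∈ C, Q G f W0 * (g c v * Q G f (V0 \ nb G v)) := by
            apply sum_le_sum
            intro v hv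
            have r := Q_ratio G hf hR hsub (nb G v)
            have := mul_le_mul_of_nonneg_left r (h2 c hc v hv)
            nlinarith
    have hkey : 0 < Q G f V0 * (Q G f W0 - ∑ v ∈ C ∩ W, g c v * Q G f (W0 \ nb G v)) := by
      have h4 := mul_pos hW hpos
      nlinarith
    exact (mul_pos_iff_of_pos_left hq).1 hkey
  have hfpos : 0 < Q G f V0 - ∑ v ∈ C, f v * Q G f (V0 \ nb G v) := by
    have := hR univ
    rwa [Q_clique G f f C hC (fun _ _ => rfl) univ, inter_univ] at this
  by_contra hcon
  push Not at hcon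
  have hle : ∀ c ∈ C, a c * (Q G f V0 - ∑ v ∈ C, g c v * Q G f (V0 \ nb G v)) ≤ 0 := by
    intro c hc
    apply mul_nonpos_of_nonneg_of_nonpos (ha c hc)
    by_contra h
    exact hcon c hc (hone c hc (not_le.1 h))
  have hs := sum_nonpos hle
  have e1 : ∑ c ∈ C, a c * (Q G f V0 - ∑ v ∈ C, g c v * Q G f (V0 \ nb G v)) =
      (∑ c ∈ C, a c) * Q G f V0 - ∑ v ∈ C, (∑ c ∈ C, a c * g c v) * Q G f (V0 \ nb G v) := by
    simp_rw [mul_sub]
    rw [sum_sub_distrib, ← sum_mul]
    congr 1
    simp_rw [mul_sum, sum_mul]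
    rw [sum_comm]
    apply sum_congr rfl
    intro v _
    apply sum_congr rfl
    intro c _
    ring
  have hs2 : ∑ v ∈ C, (∑ c ∈ C, a c * g c v) * Q G f (V0 \ nb G v) ≤
      (∑ c ∈ C, a c) * ∑ v ∈ C, f v * Q G f (V0 \ nb G v) := by
    rw [mul_sum]
    apply sum_le_sum
    intro v hv
    have := mul_le_mul_of_nonneg_right (h3 v hv) (hR (V0 \ nb G v)).le
    linarith
  have := mul_pos hpos hfpos
  rw [e1] at hs
  nlinarith

end Pool.Agent.H21.DG
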