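import Mathlib

/-!
A Maker-Breaker game on a finite board.
-/

set_option autoImplicit false

namespace Pool.Agent.H21.DG

/-- `Guarantees X good t M B`: the board is the finite set `X`; two players, Maker and Breaker,
alternately claim a previously unclaimed point of `X`, one point per move, until every point is
claimed. In the position where Maker owns the points `M`, Breaker owns the points `B`, and Maker is
to move if `t` is true and Breaker is to move if `t` is false, Maker can guarantee (whatever Breaker
does) that at the end the set of all his points has the property `good`. -/
inductive Guarantees {P : Type*} [DecidableEq P] (X : Finset P) (good : Finset P → Prop) :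
    Bool → Finset P → Finset P → Prop
  /-- The game is over (all points are claimed) and Maker's set is good. -/
  | finished (t : Bool) (M B : Finset P) : X ⊆ M ∪ B → good M → Guarantees X good t M B
  /-- Maker moves: he claims one unclaimed point and reaches a position where he can guarantee
  `good`. -/
  | maker (M B : Finset P) (p : P) :
      p ∈ X → p ∉ M ∪ B → Guarantees X good false (insert p M) B → Guarantees X good true M B
  /-- Breaker moves: there is an unclaimed point, and whichever unclaimed point he claims, Maker
  can guarantee `good` in the position reached. -/
  | breaker (M B : Finset P) :
      (∃ p ∈ X, p ∉ M ∪ B) →
      (∀ p ∈ X, p ∉ M ∪ B → Guarantees X good true M (insert p B)) → Guarantees X good false M B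

end Pool.Agent.H21.DG
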