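import Pool.Agent.H21.DG.Game

/-!
The balancing game on hypergraphs of bounded degree: the explicit bounds.
-/

set_option autoImplicit false
set_option linter.unusedSectionVars false
set_option linter.unusedVariables false

namespace Pool.Agent.H21.DG

open Finset

/-- The choice of the parameters. -/
lemma params {P : Type*} {r d : ℕ} (hr : 1 ≤ r) (hd : 1 ≤ d) {h : ℝ} (h0 : 0 < h)
    (hh2 : h ≤ 1 / 2) (hL : h ^ 2 * d = Real.log (8 * r * d)) (α : P → ℝ) (hα0 : ∀ p, 0 ≤ α p)
    (hα1 : ∀ p, α p ≤ 1) (S : Finset P) (m : ℕ)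
    (hlt : 1 / (4 * ((2 * r * d : ℕ) : ℝ)) * (∏ p ∈ S, 1 / (1 - h * α p)) * (1 - h) ^ m < 1) :
    ∑ p ∈ S, α p + 1 ≤ (1 + 2 * h) * m + (h * d + 1) := by
  have hrR : (1 : ℝ) ≤ r := by exact_mod_cast hr
  have hdR : (1 : ℝ) ≤ d := by exact_mod_cast hd
  have h1h : 0 < 1 - h := by linarith
  have hpos : ∀ p, 0 < 1 - h * α p := by
    intro p
    have := mul_le_mul_of_nonneg_left (hα1 p) h0.le
    linarith
  have hprod : 0 < ∏ p ∈ S, 1 / (1 - h * α p) := prod_pos fun p _ => one_div_pos.2 (hpos p)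
  have hA : ∀ p, h * α p ≤ Real.log (1 / (1 - h * α p)) := by
    intro p
    have h1 := Real.log_le_sub_one_of_pos (hpos p)
    rw [one_div, Real.log_inv]
    linarith
  have hB : -(h + 2 * h ^ 2) ≤ Real.log (1 - h) := by
    have h1 := Real.one_sub_inv_le_log_of_pos h1h
    have h3 : (1 - h)⁻¹ ≤ 1 + (h + 2 * h ^ 2) := by
      rw [inv_le_iff_one_le_mul₀ h1h]
      have : 0 ≤ h ^ 2 * (1 - 2 * h) := mul_nonneg (sq_nonneg h) (by linarith)
      nlinarith
    linarith
  have e4 : (4 : ℝ) * ((2 * r * d : ℕ) : ℝ) = 8 * r * d := by push_cast; ring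
  rw [e4] at hlt
  have hall : 0 < 1 / (8 * (r : ℝ) * d) * (∏ p ∈ S, 1 / (1 - h * α p)) * (1 - h) ^ m := by
    positivity
  have hlog := Real.log_neg hall hlt
  rw [Real.log_mul (by positivity) (by positivity), Real.log_mul (by positivity) hprod.ne',
    Real.log_pow, one_div (8 * _ * _), Real.log_inv,
    Real.log_prod (fun p _ => (one_div_pos.2 (hpos p)).ne'), ← hL] at hlog
  have e1 : h * ∑ p ∈ S, α p ≤ ∑ p ∈ S, Real.log (1 / (1 - h * α p)) := by
    rw [mul_sum]
    exact sum_le_sum fun p _ => hA p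
  have e2 : (m : ℝ) * (-(h + 2 * h ^ 2)) ≤ m * Real.log (1 - h) :=
    mul_le_mul_of_nonneg_left hB (Nat.cast_nonneg m)
  have e3 : h * ∑ p ∈ S, α p ≤ h * ((1 + 2 * h) * m + h * d) := by nlinarith
  have := le_of_mul_le_mul_left e3 h0
  linarith

/-- Maker can always play. -/
lemma trivial_guarantee {P ι : Type*} [DecidableEq P] [Fintype ι] {r : ℕ} (X : Finset P)
    (A : ι → Finset P) (hAX : ∀ i, A i ⊆ X)
    (hdeg : ∀ p, (univ.filter (fun i => p ∈ A i)).card ≤ r) (good : Finset P → Prop)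
    (hgood : ∀ M, good M) (t : Bool) : Guarantees X good t ∅ ∅ := by
  classical
  have hG := bound (X := X) (A := A) (x := fun _ _ => 1) (y := 1) (α := fun _ _ => 0) (b := 0)
    (E := 1) (r := r) (n := (∑ i, (A i).card * r) + 1) (by omega) (fun _ _ => le_rfl) zero_le_one
    le_rfl le_rfl zero_le_one (fun _ _ => le_rfl) (fun _ _ _ => zero_le_one)
    (fun _ _ => by norm_num) (fun _ => by simp) hdeg hAX
    (fun i => by
      have := single_le_sum (f := fun i => (A i).card * r) (fun i _ => Nat.zero_le _)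
        (mem_univ i)
      omega)
    (fun i S m _ => by simp) t
  exact hG.mono fun M _ => hgood M

/-- **The balancing game on hypergraphs in which every point is in at most `r` sets.** -/
theorem main {P ι : Type*} [DecidableEq P] [Fintype ι] {r d : ℕ} (hr : 1 ≤ r) (hd : 1 ≤ d)
    (X : Finset P) (A : ι → Finset P) (hAX : ∀ i, A i ⊆ X) (hcard : ∀ i, d ≤ (A i).card)
    (hdeg : ∀ p ∈ X, (univ.filter (fun i => p ∈ A i)).card ≤ r) (α : P → ι → ℝ)
    (hα0 : ∀ p i, 0 ≤ α p i) (hsum : ∀ p ∈ X, ∑ i ∈ univ.filter (fun i => p ∈ A i), α p i ≤ 1)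
    (t : Bool) :
    Guarantees X (fun M => ∀ i, ∑ p ∈ A i \ M, α p i ≤
      (1 + 2 * √(Real.log (8 * r * d) / d)) * (M ∩ A i).card +
        2 * √(Real.log (8 * r * d) / d) * (A i).card) t ∅ ∅ := by
  classical
  have hrR : (1 : ℝ) ≤ r := by exact_mod_cast hr
  have hdR : (1 : ℝ) ≤ d := by exact_mod_cast hd
  have hd0 : (0 : ℝ) < d := by linarith
  have hdeg' : ∀ p, (univ.filter (fun i => p ∈ A i)).card ≤ r := by
    intro p
    by_cases hp : p ∈ X
    · exact hdeg p hp
    · have : univ.filter (fun i => p ∈ A i) = ∅ :=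
        filter_eq_empty_iff.2 fun i _ h => hp (hAX i h)
      rw [this, card_empty]
      exact Nat.zero_le r
  have hsum' : ∀ p, ∑ i ∈ univ.filter (fun i => p ∈ A i), α p i ≤ 1 := by
    intro p
    by_cases hp : p ∈ X
    · exact hsum p hp
    · have : univ.filter (fun i => p ∈ A i) = ∅ :=
        filter_eq_empty_iff.2 fun i _ h => hp (hAX i h)
      rw [this, sum_empty]
      exact zero_le_one
  have hα1 : ∀ i, ∀ p ∈ A i, α p i ≤ 1 := by
    intro i p hp
    refine le_trans ?_ (hsum' p)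
    exact single_le_sum (f := fun i => α p i) (fun i _ => hα0 p i)
      (mem_filter.2 ⟨mem_univ i, hp⟩)
  have hL2 : 2 ≤ Real.log (8 * r * d) := by
    have h1 : (8 : ℝ) ≤ 8 * r * d := by nlinarith
    have h2 : Real.log 8 ≤ Real.log (8 * r * d) := Real.log_le_log (by norm_num) h1
    have h3 : Real.log 8 = 3 * Real.log 2 := by
      rw [show (8 : ℝ) = 2 ^ 3 by norm_num, Real.log_pow]
      norm_num
    have h4 := Real.log_two_gt_d9
    linarith
  obtain ⟨h, hh⟩ : ∃ h : ℝ, h = √(Real.log (8 * r * d) / d) := ⟨_, rfl⟩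
  have hsq : h ^ 2 = Real.log (8 * r * d) / d := by
    rw [hh, Real.sq_sqrt (div_nonneg (by linarith) hd0.le)]
  have hL : h ^ 2 * d = Real.log (8 * r * d) := by
    rw [hsq]
    field_simp
  have h0 : 0 < h := by
    rw [hh]
    apply Real.sqrt_pos.2
    apply div_pos (by linarith) hd0
  rw [← hh]
  have hn1 : 1 ≤ 2 * r * d := by
    have := Nat.mul_le_mul hr hd
    nlinarith
  rcases le_or_gt h (1 / 2) with hh2 | hh2
  · -- the main case: split the sets into blocks
    have hq : ∀ i, (A i).card / d ≠ 0 ∧ (A i).card / d ≤ (A i).card := by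
      intro i
      refine ⟨?_, Nat.div_le_self _ _⟩
      have := (Nat.one_le_div_iff hd).2 (hcard i)
      omega
    choose Pt hPe hPn using fun i => Finpartition.exists_equipartition_card_eq (A i) (hq i).1
      (hq i).2
    have hsize : ∀ i, ∀ T ∈ (Pt i).parts, T.card ≤ 2 * d := by
      intro i T hT
      have h2 := (hPe i).card_part_le_average_add_one hT
      rw [hPn i] at h2
      have hqpos : 0 < (A i).card / d := Nat.pos_of_ne_zero (hq i).1
      have h4 : (A i).card / ((A i).card / d) < 2 * d := by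
        rw [Nat.div_lt_iff_lt_mul hqpos]
        have h5 := Nat.lt_div_mul_add (a := (A i).card) (show 0 < d by omega)
        nlinarith
      omega
    -- the hypergraph of the blocks
    let J := (i : ι) × {T // T ∈ (Pt i).parts}
    let A' : J → Finset P := fun j => j.2.1
    let β : P → J → ℝ := fun p j => if p ∈ A' j then α p j.1 else 0
    have hsub : ∀ (j : J) (p : P), p ∈ A' j → p ∈ A j.1 := fun j p hp => (Pt j.1).le j.2.2 hp
    have hinj : ∀ p : P, Set.InjOn (fun j : J => j.1)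
        (univ.filter (fun j : J => p ∈ A' j) : Finset J) := by
      rintro p ⟨i, T, hT⟩ hj ⟨i', T', hT'⟩ hj' hii
      obtain rfl : i = i' := hii
      have hp1 : p ∈ T := (mem_filter.1 hj).2
      have hp2 : p ∈ T' := (mem_filter.1 hj').2
      have := (Pt i).eq_of_mem_parts hT hT' hp1 hp2
      subst this
      rfl
    have hβ0 : ∀ p j, 0 ≤ β p j := by
      intro p j
      simp only [β]
      split_ifs
      · exact hα0 p j.1
      · exact le_rfl
    have hβ1 : ∀ p j, β p j ≤ 1 := by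
      intro p j
      simp only [β]
      split_ifs with hp
      · exact hα1 j.1 p (hsub j p hp)
      · exact zero_le_one
    have hpos : ∀ p j, 0 < 1 - h * β p j := by
      intro p j
      have := mul_le_mul_of_nonneg_left (hβ1 p j) h0.le
      linarith
    have hG : Guarantees X (fun M => ∀ j : J, ∑ p ∈ A' j \ M, β p j ≤
        (1 + 2 * h) * (M ∩ A' j).card + (h * d + 1)) t ∅ ∅ := by
      apply bound (r := r) (n := 2 * r * d) (x := fun p j => 1 / (1 - h * β p j)) (y := 1 - h)
        hn1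
      · intro p j
        rw [le_div_iff₀ (hpos p j)]
        have := mul_nonneg h0.le (hβ0 p j)
        linarith
      · linarith
      · linarith
      · positivity
      · positivity
      · exact hβ0
      · exact fun j p _ => hβ1 p j
      · intro p j
        have : 1 - β p j * (1 - (1 - h)) = 1 - h * β p j := by ring
        rw [this, one_div, inv_mul_cancel₀ (hpos p j).ne']
      · intro p
        have e1 : ∑ j ∈ univ.filter (fun j : J => p ∈ A' j), β p j =
            ∑ j ∈ univ.filter (fun j : J => p ∈ A' j), α p j.1 := by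
          apply sum_congr rfl
          intro j hj
          simp only [β]
          rw [if_pos (mem_filter.1 hj).2]
        rw [e1, ← sum_image (f := fun i => α p i) (g := fun j : J => j.1) (hinj p)]
        refine le_trans (sum_le_sum_of_subset_of_nonneg ?_ fun i _ _ => hα0 p i) (hsum' p)
        intro i hi
        obtain ⟨j, hj, rfl⟩ := mem_image.1 hi
        exact mem_filter.2 ⟨mem_univ _, hsub j p (mem_filter.1 hj).2⟩
      · intro p
        refine le_trans (card_le_card_of_injOn (fun j => j.1) ?_ (hinj p)) (hdeg' p)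
        intro j hj
        exact mem_coe.2 (mem_filter.2 ⟨mem_univ _, hsub j p (mem_filter.1 hj).2⟩)
      · intro j
        exact ((Pt j.1).le j.2.2).trans (hAX j.1)
      · intro j
        have h1 := hsize j.1 j.2.1 j.2.2
        calc (A' j).card * r ≤ (2 * d) * r := Nat.mul_le_mul_right _ h1
          _ = 2 * r * d := by ring
      · intro j S m hlt
        exact params hr hd h0 hh2 hL (fun p => β p j) (fun p => hβ0 p j) (fun p => hβ1 p j) S m hlt
    refine hG.mono fun M hM i => ?_
    have hdisj : ∀ T ∈ (Pt i).parts, ∀ T' ∈ (Pt i).parts, T ≠ T' → Disjoint T T' :=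
      fun T hT T' hT' hne => (Pt i).disjoint hT hT' hne
    have h1 : ∑ T ∈ (Pt i).parts, (M ∩ T).card ≤ (M ∩ A i).card := by
      rw [← card_biUnion]
      · apply card_le_card
        intro q hq
        obtain ⟨T, hT, hqT⟩ := mem_biUnion.1 hq
        rw [mem_inter] at hqT ⊢
        exact ⟨hqT.1, (Pt i).le hT hqT.2⟩
      · intro T hT T' hT' hne
        exact (hdisj T hT T' hT' hne).mono inter_subset_right inter_subset_right
    have h2 : ∑ T ∈ (Pt i).parts, ∑ p ∈ T \ M, α p i ≤
        ∑ T ∈ (Pt i).parts, ((1 + 2 * h) * (M ∩ T).card + (h * d + 1)) := by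
      apply sum_le_sum
      intro T hT
      have h3 := hM ⟨i, T, hT⟩
      have h4 : ∑ p ∈ T \ M, α p i = ∑ p ∈ A' ⟨i, T, hT⟩ \ M, β p ⟨i, T, hT⟩ := by
        apply sum_congr rfl
        intro p hp
        simp only [β]
        rw [if_pos (mem_sdiff.1 hp).1]
      rw [h4]
      exact h3
    have h3 : ∑ T ∈ (Pt i).parts, ∑ p ∈ T \ M, α p i = ∑ p ∈ A i \ M, α p i := by
      rw [← sum_biUnion]
      · congr 1
        ext q
        rw [mem_biUnion, mem_sdiff]
        constructor
        · rintro ⟨T, hT, hq⟩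
          rw [mem_sdiff] at hq
          exact ⟨(Pt i).le hT hq.1, hq.2⟩
        · rintro ⟨hq, hqM⟩
          obtain ⟨T, hT, hqT⟩ := (Pt i).exists_mem hq
          exact ⟨T, hT, mem_sdiff.2 ⟨hqT, hqM⟩⟩
      · intro T hT T' hT' hne
        exact (hdisj T hT T' hT' hne).mono sdiff_subset sdiff_subset
    have h4 : ∑ T ∈ (Pt i).parts, ((1 + 2 * h) * ((M ∩ T).card : ℝ) + (h * d + 1)) =
        (1 + 2 * h) * ((∑ T ∈ (Pt i).parts, (M ∩ T).card : ℕ) : ℝ) +
          (Pt i).parts.card * (h * d + 1) := by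
      rw [sum_add_distrib, ← mul_sum, sum_const, nsmul_eq_mul]
      push_cast
      ring
    have h5 : ((Pt i).parts.card : ℝ) * d ≤ (A i).card := by
      rw [hPn i]
      exact_mod_cast Nat.div_mul_le_self _ _
    have h6 : ((Pt i).parts.card : ℝ) ≤ h * (A i).card := by
      have h7 : 1 ≤ h * d := by
        have h8 : (1 : ℝ) ^ 2 ≤ (h * d) ^ 2 := by
          have : (h * d) ^ 2 = (h ^ 2 * d) * d := by ring
          rw [this, hL]
          nlinarith
        exact le_of_sq_le_sq h8 (by positivity)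
      have h9 : (0 : ℝ) ≤ (Pt i).parts.card := Nat.cast_nonneg _
      have h10 := mul_le_mul_of_nonneg_left h7 h9
      have h11 := mul_le_mul_of_nonneg_left h5 h0.le
      nlinarith
    have h7 : ((∑ T ∈ (Pt i).parts, (M ∩ T).card : ℕ) : ℝ) ≤ (M ∩ A i).card := by
      exact_mod_cast h1
    have h8 : (1 + 2 * h) * ((∑ T ∈ (Pt i).parts, (M ∩ T).card : ℕ) : ℝ) ≤
        (1 + 2 * h) * (M ∩ A i).card := mul_le_mul_of_nonneg_left h7 (by linarith)
    have h9 := mul_le_mul_of_nonneg_left h5 h0.le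
    rw [h3, h4] at h2
    nlinarith
  · -- the trivial case
    apply trivial_guarantee X A hAX hdeg'
    intro M i
    have h1 : ∑ p ∈ A i \ M, α p i ≤ (A i \ M).card := by
      have := sum_le_card_nsmul (A i \ M) (fun p => α p i) 1
        (fun p hp => hα1 i p (mem_sdiff.1 hp).1)
      rwa [nsmul_eq_mul, mul_one] at this
    have h2 : ((A i \ M).card : ℝ) ≤ (A i).card := by exact_mod_cast card_le_card sdiff_subset
    have h3 : (0 : ℝ) ≤ (A i).card := Nat.cast_nonneg _
    have h4 : (0 : ℝ) ≤ (M ∩ A i).card := Nat.cast_nonneg _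
    nlinarith

/-- Shares which depend only on the set. -/
theorem main_shares {P ι : Type*} [DecidableEq P] [Fintype ι] {r d : ℕ} (hr : 1 ≤ r) (hd : 1 ≤ d)
    (X : Finset P) (A : ι → Finset P) (hAX : ∀ i, A i ⊆ X) (hcard : ∀ i, d ≤ (A i).card)
    (hdeg : ∀ p ∈ X, (univ.filter (fun i => p ∈ A i)).card ≤ r) (a : ι → ℝ)
    (ha : ∀ i, 0 ≤ a i) (hsum : ∀ p ∈ X, ∑ i ∈ univ.filter (fun i => p ∈ A i), a i ≤ 1)
    (t : Bool) :
    Guarantees X (fun M => ∀ i, (a i / (1 + a i) - 2 * √(Real.log (8 * r * d) / d)) *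
      (A i).card ≤ (M ∩ A i).card) t ∅ ∅ := by
  refine (main hr hd X A hAX hcard hdeg (fun _ i => a i) (fun _ i => ha i) hsum t).mono
    fun M hM i => ?_
  obtain ⟨h, hh⟩ : ∃ h : ℝ, h = √(Real.log (8 * r * d) / d) := ⟨_, rfl⟩
  have h0 : 0 ≤ h := by rw [hh]; exact Real.sqrt_nonneg _
  have h1 := hM i
  rw [← hh] at h1 ⊢
  rw [sum_const, nsmul_eq_mul] at h1
  have hc : ((A i \ M).card : ℝ) = (A i).card - (M ∩ A i).card := by
    have := card_sdiff_add_card_inter (A i) M
    rw [inter_comm] at this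
    have h2 : ((A i \ M).card : ℝ) + (M ∩ A i).card = (A i).card := by exact_mod_cast this
    linarith
  rw [hc] at h1
  obtain ⟨n, hn⟩ : ∃ n : ℝ, n = (A i).card := ⟨_, rfl⟩
  obtain ⟨m, hm⟩ : ∃ m : ℝ, m = (M ∩ A i).card := ⟨_, rfl⟩
  have hn0 : 0 ≤ n := by rw [hn]; exact Nat.cast_nonneg _
  have hm0 : 0 ≤ m := by rw [hm]; exact Nat.cast_nonneg _
  rw [← hn, ← hm] at h1
  rw [← hn, ← hm]
  have ha0 := ha i
  obtain ⟨q, hq⟩ : ∃ q : ℝ, q = a i / (1 + a i) := ⟨_, rfl⟩
  have hq1 : q * (1 + a i) = a i := by rw [hq]; field_simp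
  have hqa : q ≤ a i := by
    rw [hq]
    exact div_le_self ha0 (by linarith)
  rw [← hq]
  have hpos : 0 < 1 + a i + 2 * h := by linarith
  apply le_of_mul_le_mul_right _ hpos
  have k1 : (a i - 2 * h) * n ≤ m * (1 + a i + 2 * h) := by nlinarith
  have k2 : (q - 2 * h) * (1 + a i + 2 * h) ≤ a i - 2 * h := by nlinarith
  have k3 := mul_le_mul_of_nonneg_right k2 hn0
  nlinarith

/-- Equal shares. -/
theorem main_equal {P ι : Type*} [DecidableEq P] [Fintype ι] {r d : ℕ} (hr : 1 ≤ r) (hd : 1 ≤ d)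
    (X : Finset P) (A : ι → Finset P) (hAX : ∀ i, A i ⊆ X) (hcard : ∀ i, d ≤ (A i).card)
    (hdeg : ∀ p ∈ X, (univ.filter (fun i => p ∈ A i)).card ≤ r) (t : Bool) :
    Guarantees X (fun M => ∀ i, (1 / ((r : ℝ) + 1) - 2 * √(Real.log (8 * r * d) / d)) *
      (A i).card ≤ (M ∩ A i).card) t ∅ ∅ := by
  have hrR : (1 : ℝ) ≤ r := by exact_mod_cast hr
  have hr0 : (0 : ℝ) < r := by linarith
  refine (main_shares hr hd X A hAX hcard hdeg (fun _ => 1 / (r : ℝ)) (fun _ => by positivity)
    (fun p hp => ?_) t).mono fun M hM i => ?_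
  · rw [sum_const, nsmul_eq_mul, mul_one_div, div_le_one hr0]
    exact_mod_cast hdeg p hp
  · have e : 1 / (r : ℝ) / (1 + 1 / r) = 1 / (r + 1) := by
      field_simp
    have := hM i
    rwa [e] at this

end Pool.Agent.H21.DG
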