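import Pool.Agent.H21.DG.Clique
import Pool.Agent.H21.DG.Defs

/-!
Maker's strategy in the balancing game on hypergraphs of bounded degree.
-/

set_option autoImplicit false
set_option linter.unusedSectionVars false
set_option linter.unusedVariables false

namespace Pool.Agent.H21.DG

open Finset
open Pool.Agent.Results.MP_0dac36_co.DegreeGame (Q R nb mem_nb Q_singleton R_mono R_init)

variable {P ι : Type*} [DecidableEq P] [Fintype ι] [DecidableEq ι]

/-- The dependency graph: two sets are adjacent if they meet. -/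
def dep (A : ι → Finset P) : SimpleGraph ι where
  Adj i j := i ≠ j ∧ ∃ p, p ∈ A i ∧ p ∈ A j
  symm := ⟨fun _ _ h => ⟨h.1.symm, h.2.imp fun _ hp => ⟨hp.2, hp.1⟩⟩⟩
  loopless := ⟨fun _ h => h.1 rfl⟩

/-- The point `p` is unclaimed. -/
def Free (X M B : Finset P) (p : P) : Prop := p ∈ X ∧ p ∉ M ∧ p ∉ B

/-- Some unclaimed point lies in `A i`. -/
def Alive (X : Finset P) (A : ι → Finset P) (M B : Finset P) (i : ι) : Prop :=
  ∃ p, Free X M B p ∧ p ∈ A i

open Classical in
/-- The weight of a set. -/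
noncomputable def wt (X : Finset P) (A : ι → Finset P) (f0 : ℝ) (x : P → ι → ℝ) (y : ℝ)
    (M B : Finset P) (i : ι) : ℝ :=
  if Alive X A M B i then f0 * (∏ p ∈ B ∩ A i, x p i) * y ^ (M ∩ A i).card else 0

variable (X : Finset P) (A : ι → Finset P)

lemma card_insert_inter {S : Finset P} {p : P} (hp : p ∉ S) (i : ι) :
    (insert p S ∩ A i).card = (S ∩ A i).card + if p ∈ A i then 1 else 0 := by
  split_ifs with h
  · rw [insert_inter_of_mem h, card_insert_of_notMem]
    intro h2
    exact hp (mem_inter.1 h2).1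
  · rw [insert_inter_of_notMem h, add_zero]

lemma prod_insert_inter {S : Finset P} {p : P} (hp : p ∉ S) (x : P → ι → ℝ) (i : ι) :
    ∏ q ∈ insert p S ∩ A i, x q i = (∏ q ∈ S ∩ A i, x q i) * if p ∈ A i then x p i else 1 := by
  split_ifs with h
  · rw [insert_inter_of_mem h, prod_insert, mul_comm]
    intro h2
    exact hp (mem_inter.1 h2).1
  · rw [insert_inter_of_notMem h, mul_one]

lemma sum_insert_inter {S : Finset P} {p : P} (hp : p ∉ S) (α : P → ι → ℝ) (i : ι) :
    ∑ q ∈ insert p S ∩ A i, α q i = (∑ q ∈ S ∩ A i, α q i) + if p ∈ A i then α p i else 0 := by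
  split_ifs with h
  · rw [insert_inter_of_mem h, sum_insert, add_comm]
    intro h2
    exact hp (mem_inter.1 h2).1
  · rw [insert_inter_of_notMem h, add_zero]

variable {f0 y : ℝ} {x : P → ι → ℝ}

lemma wt_nonneg (h0 : 0 ≤ f0) (hx : ∀ p i, 1 ≤ x p i) (hy : 0 ≤ y) (M B : Finset P) (i : ι) :
    0 ≤ wt X A f0 x y M B i := by
  unfold wt
  split_ifs
  · have : 0 ≤ ∏ p ∈ B ∩ A i, x p i := prod_nonneg fun p _ => zero_le_one.trans (hx p i)
    positivity
  · exact le_rfl

/-- effect of a point `p` of Breaker followed by a point `p'` of Maker -/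
lemma wt_le (h0 : 0 ≤ f0) (hx : ∀ p i, 1 ≤ x p i) (hy : 0 ≤ y) {M B : Finset P} {p p' : P}
    (hp : Free X M B p) (hp' : Free X M (insert p B) p') (i : ι) :
    wt X A f0 x y (insert p' M) (insert p B) i ≤
      wt X A f0 x y M B i * (if p ∈ A i then x p i else 1) * (if p' ∈ A i then y else 1) := by
  have hr : 0 ≤ wt X A f0 x y M B i * (if p ∈ A i then x p i else 1) *
      (if p' ∈ A i then y else 1) := by
    have := wt_nonneg X A h0 hx hy M B i
    apply mul_nonneg (mul_nonneg this _)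
    · split_ifs
      · exact hy
      · exact zero_le_one
    · split_ifs
      · exact zero_le_one.trans (hx p i)
      · exact zero_le_one
  by_cases h : Alive X A (insert p' M) (insert p B) i
  · have h' : Alive X A M B i := by
      obtain ⟨q, ⟨h1, h2, h3⟩, h4⟩ := h
      exact ⟨q, ⟨h1, fun h => h2 (mem_insert_of_mem h), fun h => h3 (mem_insert_of_mem h)⟩, h4⟩
    unfold wt
    rw [if_pos h, if_pos h', prod_insert_inter A hp.2.2, card_insert_inter A hp'.2.1]
    apply le_of_eq
    split_ifs <;> ring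
  · unfold wt at hr ⊢
    rw [if_neg h]
    exact hr

/-- a point of Maker only decreases the weights -/
lemma wt_le_maker (h0 : 0 ≤ f0) (hx : ∀ p i, 1 ≤ x p i) (hy : 0 ≤ y) (hy1 : y ≤ 1)
    {M B : Finset P} {p : P} (hp : Free X M B p) (i : ι) :
    wt X A f0 x y (insert p M) B i ≤ wt X A f0 x y M B i := by
  by_cases h : Alive X A (insert p M) B i
  · have h' : Alive X A M B i := by
      obtain ⟨q, ⟨h1, h2, h3⟩, h4⟩ := h
      exact ⟨q, ⟨h1, fun h => h2 (mem_insert_of_mem h), h3⟩, h4⟩
    unfold wt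
    rw [if_pos h, if_pos h', card_insert_inter A hp.2.1]
    have h2 : 0 ≤ ∏ p ∈ B ∩ A i, x p i := prod_nonneg fun p _ => zero_le_one.trans (hx p i)
    have h1 : 0 ≤ f0 * (∏ p ∈ B ∩ A i, x p i) * y ^ (M ∩ A i).card := by positivity
    split_ifs
    · rw [pow_succ]
      have := mul_le_mul_of_nonneg_left hy1 h1
      linarith
    · exact le_rfl
  · have := wt_nonneg X A h0 hx hy M B i
    unfold wt at this ⊢
    rw [if_neg h]
    exact this

lemma wt_dead {M B : Finset P} {p' : P} {i : ι} (h : ¬ Alive X A M B i) :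
    wt X A f0 x y (insert p' M) B i = 0 := by
  unfold wt
  rw [if_neg]
  rintro ⟨q, ⟨h1, h2, h3⟩, h4⟩
  exact h ⟨q, ⟨h1, fun h => h2 (mem_insert_of_mem h), h3⟩, h4⟩

/-- Maker's invariant (Breaker to move). -/
structure Inv (f0 : ℝ) (x : P → ι → ℝ) (y : ℝ) (α : P → ι → ℝ) (b E : ℝ) (M B : Finset P) :
    Prop where
  reg : R (dep A) (wt X A f0 x y M B)
  err : ∀ i, ∑ p ∈ B ∩ A i, α p i ≤ b * (M ∩ A i).card + E
  disj : Disjoint M B

variable {X} {A} {α : P → ι → ℝ} {b E : ℝ}

lemma err_insert (h0 : 0 ≤ f0) (hx : ∀ p i, 1 ≤ x p i) (hα1 : ∀ i, ∀ p ∈ A i, α p i ≤ 1)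
    (hE : ∀ (i : ι) (S : Finset P) (m : ℕ), f0 * (∏ p ∈ S, x p i) * y ^ m < 1 →
      ∑ p ∈ S, α p i + 1 ≤ b * m + E)
    {M B : Finset P} (hI : Inv X A f0 x y α b E M B) {p : P} (hp : Free X M B p) (i : ι) :
    ∑ q ∈ insert p B ∩ A i, α q i ≤ b * (M ∩ A i).card + E := by
  rw [sum_insert_inter A hp.2.2]
  split_ifs with h
  · have h1 := hI.reg {i}
    rw [Q_singleton] at h1
    have h2 : wt X A f0 x y M B i = f0 * (∏ p ∈ B ∩ A i, x p i) * y ^ (M ∩ A i).card := by
      unfold wt
      rw [if_pos ⟨p, hp, h⟩]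
    rw [h2] at h1
    have h3 := hE i (B ∩ A i) (M ∩ A i).card (by linarith)
    have h4 := hα1 i p h
    linarith
  · rw [add_zero]
    exact hI.err i

/-- Maker's reply to the point `p` of Breaker. -/
lemma reply (h0 : 0 ≤ f0) (hx : ∀ p i, 1 ≤ x p i) (hy : 0 ≤ y)
    (hy1 : y ≤ 1) (hb : 0 ≤ b) (hα0 : ∀ p i, 0 ≤ α p i) (hα1 : ∀ i, ∀ p ∈ A i, α p i ≤ 1)
    (hxα : ∀ p i, x p i * (1 - α p i * (1 - y)) ≤ 1)
    (hsum : ∀ p, ∑ i ∈ univ.filter (fun i => p ∈ A i), α p i ≤ 1)
    (hE : ∀ (i : ι) (S : Finset P) (m : ℕ), f0 * (∏ p ∈ S, x p i) * y ^ m < 1 →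
      ∑ p ∈ S, α p i + 1 ≤ b * m + E)
    {M B : Finset P} (hI : Inv X A f0 x y α b E M B) {p : P} (hp : Free X M B p)
    (hex : ∃ p', Free X M (insert p B) p') :
    ∃ p', Free X M (insert p B) p' ∧ Inv X A f0 x y α b E (insert p' M) (insert p B) := by
  classical
  have hfin : ∀ p', Free X M (insert p B) p' →
      R (dep A) (wt X A f0 x y (insert p' M) (insert p B)) →
      ∃ p', Free X M (insert p B) p' ∧ Inv X A f0 x y α b E (insert p' M) (insert p B) := by
    intro p' hp' hR
    refine ⟨p', hp', hR, fun i => ?_, ?_⟩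
    · refine (err_insert h0 hx hα1 hE hI hp i).trans ?_
      rw [card_insert_inter A hp'.2.1]
      have h1 : ((M ∩ A i).card : ℝ) ≤
          (((M ∩ A i).card + if p' ∈ A i then 1 else 0 : ℕ) : ℝ) := by
        exact_mod_cast Nat.le_add_right _ _
      have := mul_le_mul_of_nonneg_left h1 hb
      linarith
    · rw [disjoint_insert_left]
      refine ⟨hp'.2.2, ?_⟩
      rw [disjoint_insert_right]
      exact ⟨hp.2.1, hI.disj⟩
  have hw := wt_nonneg X A h0 hx hy M B
  set w := wt X A f0 x y M B with hwdef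
  have hy' : ∀ (q : P) (i : ι), (if q ∈ A i then y else 1) ≤ 1 := by
    intro q i
    split_ifs
    · exact hy1
    · exact le_rfl
  -- the sets hit by `p` which are still alive
  set C : Finset ι := univ.filter (fun i => p ∈ A i ∧ Alive X A M (insert p B) i) with hC
  have hCmem : ∀ i, i ∈ C ↔ p ∈ A i ∧ Alive X A M (insert p B) i := by
    intro i
    simp [hC]
  have hout : ∀ p', Free X M (insert p B) p' → ∀ i, i ∉ C →
      wt X A f0 x y (insert p' M) (insert p B) i ≤ w i := by
    intro p' hp' i hi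
    by_cases hpi : p ∈ A i
    · have hd : ¬ Alive X A M (insert p B) i := fun h => hi ((hCmem i).2 ⟨hpi, h⟩)
      rw [wt_dead X A hd]
      exact hw i
    · have h1 := wt_le X A h0 hx hy hp hp' i
      rw [if_neg hpi, mul_one] at h1
      have h3 := mul_le_mul_of_nonneg_left (hy' p' i) (hw i)
      linarith
  have hS1 : ∑ c ∈ C, α p c ≤ 1 := by
    refine le_trans (sum_le_sum_of_subset_of_nonneg ?_ fun i _ _ => hα0 p i) (hsum p)
    intro i hi
    rw [mem_filter]
    exact ⟨mem_univ _, ((hCmem i).1 hi).1⟩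
  rcases (sum_nonneg fun c (_ : c ∈ C) => hα0 p c).eq_or_lt with hS0 | hS0
  · obtain ⟨p', hp'⟩ := hex
    apply hfin p' hp'
    apply R_mono (dep A) hI.reg
    intro i
    by_cases hi : i ∈ C
    · have hz : α p i = 0 :=
        (sum_eq_zero_iff_of_nonneg fun c (_ : c ∈ C) => hα0 p c).1 hS0.symm i hi
      have hx1 : x p i ≤ 1 := by
        have := hxα p i
        rw [hz] at this
        linarith
      have h1 := wt_le X A h0 hx hy hp hp' i
      rw [if_pos ((hCmem i).1 hi).1] at h1
      have h2 : w i * x p i ≤ w i := by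
        have := mul_le_mul_of_nonneg_left hx1 (hw i)
        linarith
      have h3 := mul_le_mul_of_nonneg_left (hy' p' i)
        (mul_nonneg (hw i) (zero_le_one.trans (hx p i)))
      linarith
    · exact hout p' hp' i hi
  · set g : ι → ι → ℝ := fun c v => if v ∈ C then w v * x p v * (if v = c then y else 1) else w v
      with hg
    have hx0 : ∀ v, 0 ≤ w v * x p v := fun v => mul_nonneg (hw v) (zero_le_one.trans (hx p v))
    have hstep := R_step_clique (dep A) hw hI.reg C
      (fun a ha b hb hab => ⟨hab, p, ((hCmem a).1 ha).1, ((hCmem b).1 hb).1⟩) (α p)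
      (fun c _ => hα0 p c) hS0 g
      (fun c _ v hv => by rw [hg]; exact if_neg hv)
      (fun c _ v hv => by
        simp only [hg, if_pos hv]
        apply mul_nonneg (hx0 v)
        split_ifs
        · exact hy
        · exact zero_le_one)
      (fun v hv => by
        have e1 : ∑ c ∈ C, α p c * g c v =
            w v * x p v * ((∑ c ∈ C, α p c) - α p v * (1 - y)) := by
          have e2 : ∀ c ∈ C, α p c * g c v =
              w v * x p v * (α p c - (if v = c then α p c * (1 - y) else 0)) := by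
            intro c _
            simp only [hg, if_pos hv]
            split_ifs <;> ring
          rw [sum_congr rfl e2, ← mul_sum, sum_sub_distrib, sum_ite_eq, if_pos hv]
        rw [e1]
        have e4 : x p v * ((∑ c ∈ C, α p c) - α p v * (1 - y)) ≤ ∑ c ∈ C, α p c := by
          have h1 := hxα p v
          have h2 := mul_nonneg (sub_nonneg.2 (hx p v)) (sub_nonneg.2 hS1)
          nlinarith
        have e5 := mul_le_mul_of_nonneg_left e4 (hw v)
        linarith)
    obtain ⟨c, hc, hRc⟩ := hstep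
    obtain ⟨p', hp', hpc⟩ := ((hCmem c).1 hc).2
    apply hfin p' hp'
    apply R_mono (dep A) hRc
    intro i
    by_cases hi : i ∈ C
    · have h1 := wt_le X A h0 hx hy hp hp' i
      rw [if_pos ((hCmem i).1 hi).1] at h1
      simp only [hg, if_pos hi]
      refine h1.trans (mul_le_mul_of_nonneg_left ?_ (hx0 i))
      by_cases hic : i = c
      · rw [if_pos hic, if_pos (hic ▸ hpc)]
      · rw [if_neg hic]
        exact hy' p' i
    · simp only [hg, if_neg hi]
      exact hout p' hp' i hi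

/-- when everything is claimed the bound holds -/
lemma final_bound (hα0 : ∀ p i, 0 ≤ α p i) (hAX : ∀ i, A i ⊆ X) {M B : Finset P}
    (hall : X ⊆ M ∪ B) (i : ι) (hB : ∑ p ∈ B ∩ A i, α p i ≤ b * (M ∩ A i).card + E) :
    ∑ p ∈ A i \ M, α p i ≤ b * (M ∩ A i).card + E := by
  refine le_trans (sum_le_sum_of_subset_of_nonneg ?_ fun p _ _ => hα0 p i) hB
  intro p hp
  rw [mem_sdiff] at hp
  rw [mem_inter]
  refine ⟨?_, hp.1⟩
  rcases mem_union.1 (hall (hAX i hp.1)) with h | h
  · exact absurd h hp.2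
  · exact h

lemma guarantees_aux (h0 : 0 ≤ f0) (hx : ∀ p i, 1 ≤ x p i) (hy : 0 ≤ y)
    (hy1 : y ≤ 1) (hb : 0 ≤ b) (hα0 : ∀ p i, 0 ≤ α p i) (hα1 : ∀ i, ∀ p ∈ A i, α p i ≤ 1)
    (hxα : ∀ p i, x p i * (1 - α p i * (1 - y)) ≤ 1)
    (hsum : ∀ p, ∑ i ∈ univ.filter (fun i => p ∈ A i), α p i ≤ 1)
    (hE : ∀ (i : ι) (S : Finset P) (m : ℕ), f0 * (∏ p ∈ S, x p i) * y ^ m < 1 →
      ∑ p ∈ S, α p i + 1 ≤ b * m + E)
    (hAX : ∀ i, A i ⊆ X) (N : ℕ) :
    ∀ M B : Finset P, (X \ (M ∪ B)).card ≤ N → Inv X A f0 x y α b E M B →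
      Guarantees X (fun M => ∀ i, ∑ p ∈ A i \ M, α p i ≤ b * (M ∩ A i).card + E) false M B := by
  have hfin : ∀ (t : Bool) (M B : Finset P), X ⊆ M ∪ B →
      (∀ i, ∑ p ∈ B ∩ A i, α p i ≤ b * (M ∩ A i).card + E) →
      Guarantees X (fun M => ∀ i, ∑ p ∈ A i \ M, α p i ≤ b * (M ∩ A i).card + E) t M B := by
    intro t M B hall hB
    exact Guarantees.finished t M B hall fun i => final_bound hα0 hAX hall i (hB i)
  induction N with
  | zero =>
    intro M B hN hI
    have h1 := card_eq_zero.1 (Nat.le_zero.1 hN)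
    exact hfin false M B (sdiff_eq_empty_iff_subset.1 h1) hI.err
  | succ N ih =>
    intro M B hN hI
    by_cases hex : ∃ p ∈ X, p ∉ M ∪ B
    · apply Guarantees.breaker M B hex
      intro p hpX hpMB
      rw [mem_union, not_or] at hpMB
      have hfree : Free X M B p := ⟨hpX, hpMB.1, hpMB.2⟩
      by_cases hex' : ∃ p', Free X M (insert p B) p'
      · obtain ⟨p', hp', hI'⟩ := reply h0 hx hy hy1 hb hα0 hα1 hxα hsum hE hI hfree hex'
        apply Guarantees.maker M (insert p B) p' hp'.1
        · rw [mem_union, not_or]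
          exact ⟨hp'.2.1, hp'.2.2⟩
        · apply ih _ _ _ hI'
          have hlt : (X \ (insert p' M ∪ insert p B)) ⊂ (X \ (M ∪ B)) := by
            rw [ssubset_iff_of_subset]
            · refine ⟨p, ?_, ?_⟩
              · rw [mem_sdiff, mem_union, not_or]
                exact ⟨hpX, hpMB.1, hpMB.2⟩
              · rw [mem_sdiff, not_and, not_not]
                intro _
                exact mem_union_right _ (mem_insert_self _ _)
            · apply sdiff_subset_sdiff le_rfl
              exact union_subset_union (subset_insert _ _) (subset_insert _ _)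
          have := card_lt_card hlt
          omega
      · apply hfin true M (insert p B) _ (err_insert h0 hx hα1 hE hI hfree)
        intro q hq
        by_contra hc
        rw [mem_union, not_or] at hc
        exact hex' ⟨q, hq, hc.1, hc.2⟩
    · push Not at hex
      exact hfin false M B hex hI.err

/-- The number of sets which meet a given one. -/
lemma card_nb_le {r : ℕ} (hr : ∀ p, (univ.filter (fun i => p ∈ A i)).card ≤ r) (i : ι) :
    (nb (dep A) i).card ≤ (A i).card * r := by
  classical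
  have h1 : nb (dep A) i ⊆ (A i).biUnion (fun p => univ.filter (fun j => p ∈ A j)) := by
    intro j hj
    rw [mem_nb] at hj
    obtain ⟨_, p, hpi, hpj⟩ := hj
    rw [mem_biUnion]
    exact ⟨p, hpi, mem_filter.2 ⟨mem_univ _, hpj⟩⟩
  exact (card_le_card h1).trans (card_biUnion_le_card_mul _ _ _ fun p _ => hr p)

/-- The main bound for one hypergraph. -/
lemma bound {r n : ℕ} (hn : 1 ≤ n) (hx : ∀ p i, 1 ≤ x p i) (hy : 0 ≤ y)
    (hy1 : y ≤ 1) (hb : 0 ≤ b) (hE0 : 0 ≤ E) (hα0 : ∀ p i, 0 ≤ α p i)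
    (hα1 : ∀ i, ∀ p ∈ A i, α p i ≤ 1)
    (hxα : ∀ p i, x p i * (1 - α p i * (1 - y)) ≤ 1)
    (hsum : ∀ p, ∑ i ∈ univ.filter (fun i => p ∈ A i), α p i ≤ 1)
    (hr : ∀ p, (univ.filter (fun i => p ∈ A i)).card ≤ r) (hAX : ∀ i, A i ⊆ X)
    (hAn : ∀ i, (A i).card * r ≤ n)
    (hE : ∀ (i : ι) (S : Finset P) (m : ℕ),
      1 / (4 * (n : ℝ)) * (∏ p ∈ S, x p i) * y ^ m < 1 → ∑ p ∈ S, α p i + 1 ≤ b * m + E)
    (t : Bool) :
    Guarantees X (fun M => ∀ i, ∑ p ∈ A i \ M, α p i ≤ b * (M ∩ A i).card + E) t ∅ ∅ := by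
  have h0 : (0 : ℝ) ≤ 1 / (4 * n) := by positivity
  have hR0 : R (dep A) (wt X A (1 / (4 * n)) x y ∅ ∅) := by
    apply R_init (dep A) hn
    · intro v
      unfold wt
      split_ifs
      · simp
      · exact h0
    · exact fun i => (card_nb_le hr i).trans (hAn i)
  have hinv : Inv X A (1 / (4 * n)) x y α b E ∅ ∅ := ⟨hR0, fun i => by simpa using hE0, by simp⟩
  cases t with
  | false => exact guarantees_aux h0 hx hy hy1 hb hα0 hα1 hxα hsum hE hAX _ _ _ le_rfl hinv
  | true =>
    by_cases hex : ∃ p, p ∈ X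
    · obtain ⟨p, hp⟩ := hex
      apply Guarantees.maker ∅ ∅ p hp (by simp)
      have hfree : Free X ∅ ∅ p := ⟨hp, by simp, by simp⟩
      apply guarantees_aux h0 hx hy hy1 hb hα0 hα1 hxα hsum hE hAX _ _ _ le_rfl
      refine ⟨?_, fun i => ?_, by simp⟩
      · apply R_mono (dep A) hR0
        intro i
        exact wt_le_maker X A h0 hx hy hy1 hfree i
      · rw [empty_inter, sum_empty]
        positivity
    · push Not at hex
      have hXe : X ⊆ ∅ ∪ ∅ := fun q hq => absurd hq (hex q)
      apply Guarantees.finished true ∅ ∅ hXe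
      intro i
      exact final_bound hα0 hAX hXe i (by simpa using hE0)

/-- The guarantees only depend on the final position. -/
lemma Guarantees.mono {P : Type*} [DecidableEq P] {X : Finset P} {good good' : Finset P → Prop}
    (h : ∀ M : Finset P, good M → good' M) {t : Bool} {M B : Finset P}
    (hG : Guarantees X good t M B) : Guarantees X good' t M B := by
  induction hG with
  | finished t M B hall hv => exact .finished t M B hall (h M hv)
  | maker M B p hp hn _ ih => exact .maker M B p hp hn ih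
  | breaker M B hex _ ih => exact .breaker M B hex ih

end Pool.Agent.H21.DG
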